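import Pool.Agent.H87.LE.B09a_Energy

open MeasureTheory Complex Set Filter Topology

namespace Pool.Agent.H87.LF

open Pool.Agent.H87.LE

/-! # The domain is connected -/

private theorem annulus_conn {r t : ℝ} (hr : 0 < r) :
    IsPreconnected {z : ℂ | r < ‖z‖ ∧ ‖z‖ < t} := by
  have h1 : IsPreconnected (Ioo r t ×ˢ Metric.sphere (0 : ℂ) 1) := by
    refine isPreconnected_Ioo.prod ?_
    refine isPreconnected_sphere ?_ 0 1
    rw [rank_real_complex]
    norm_num
  have h2 := h1.image (fun p : ℝ × ℂ => (p.1 : ℂ) * p.2) (by fun_prop)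
  convert h2 using 1
  ext z
  constructor
  · rintro ⟨a, b⟩
    have hz : 0 < ‖z‖ := hr.trans a
    have hz0 : (‖z‖ : ℂ) ≠ 0 := by exact_mod_cast hz.ne'
    refine ⟨(‖z‖, z / ‖z‖), ⟨⟨a, b⟩, ?_⟩, ?_⟩
    · rw [mem_sphere_zero_iff_norm, norm_div, norm_real, norm_norm, div_self hz.ne']
    · simp only
      field_simp
  · rintro ⟨⟨s, w⟩, ⟨hs, hw⟩, rfl⟩
    have hw' : ‖w‖ = 1 := by simpa using hw
    have hs0 : 0 < s := hr.trans hs.1
    have : ‖(s : ℂ) * w‖ = s := by
      rw [norm_mul, norm_real, Real.norm_of_nonneg hs0.le, hw', mul_one]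
    exact ⟨by rw [this]; exact hs.1, by rw [this]; exact hs.2⟩

private theorem wall_sub' (Z : Set ℝ) (t : ℝ) : wall Z t ⊆ Mir := by
  rintro z (⟨h, -⟩ | ⟨h, -⟩)
  · have h' : z.re * z.im = 0 := h
    show z.re * z.im * (z.re ^ 2 - z.im ^ 2) = 0
    rw [h', zero_mul]
  · exact h

private theorem mir_cone {c : ℝ} (hc : 0 < c) {z : ℂ} (hz : z ∉ Mir) : (c : ℂ) * z ∉ Mir := by
  intro h
  apply hz
  have h1 : (c * z.re) * (c * z.im) * ((c * z.re) ^ 2 - (c * z.im) ^ 2) = 0 := by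
    have h2 : ((c : ℂ) * z).re * ((c : ℂ) * z).im * (((c : ℂ) * z).re ^ 2 - ((c : ℂ) * z).im ^ 2) = 0 := h
    rwa [re_ofReal_mul, im_ofReal_mul] at h2
  show z.re * z.im * (z.re ^ 2 - z.im ^ 2) = 0
  have h3 : c ^ 4 * (z.re * z.im * (z.re ^ 2 - z.im ^ 2)) = 0 := by
    rw [← h1]; ring
  rcases mul_eq_zero.1 h3 with h4 | h4
  · exact absurd h4 (by positivity)
  · exact h4

theorem isConnected_dom {Z : Set ℝ} {r₀ t : ℝ} (hZ : IsClosed Z) (hZr : Z ⊆ Icc 0 r₀)
    (hr : 0 < r₀) (hrt : r₀ < t) (ht : t < 1 / 2) : IsConnected (DD \ wall Z t) := by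
  set A : Set ℂ := {z : ℂ | r₀ < ‖z‖ ∧ ‖z‖ < t} with hA
  set Ω : Set ℂ := DD \ wall Z t with hΩ
  have hwc : IsClosed (wall Z t) := by
    have h : wall Z t = ({z : ℂ | z.re * z.im = 0} ∩ {z : ℂ | t ≤ ‖z‖}) ∪
        ({z : ℂ | z.re * z.im * (z.re ^ 2 - z.im ^ 2) = 0} ∩ (fun z : ℂ => ‖z‖) ⁻¹' Z) := rfl
    rw [h]
    refine ((isClosed_eq (by fun_prop) continuous_const).inter
      (isClosed_le continuous_const (by fun_prop))).union
      ((isClosed_eq (by fun_prop) continuous_const).inter (hZ.preimage (by fun_prop)))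
  have hDo : IsOpen DD := by
    have h : DD = {z : ℂ | |z.re| < 1} ∩ {z : ℂ | |z.im| < 1} := rfl
    rw [h]
    exact (isOpen_lt (by fun_prop) continuous_const).inter
      (isOpen_lt (by fun_prop) continuous_const)
  have hΩo : IsOpen Ω := hDo.sdiff hwc
  have hball : ∀ z : ℂ, ‖z‖ < 1 → z ∈ DD := fun z hz =>
    ⟨(abs_re_le_norm z).trans_lt hz, (abs_im_le_norm z).trans_lt hz⟩
  have hAΩ : A ⊆ Ω := by
    rintro z ⟨h1, h2⟩
    refine ⟨hball z (by linarith), ?_⟩
    rintro (⟨-, h3⟩ | ⟨-, h3⟩)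
    · linarith
    · have := (hZr h3).2
      linarith
  set m : ℝ := (r₀ + t) / 2 with hm
  have hm0 : 0 < m := by rw [hm]; linarith
  have hm1 : r₀ < m := by rw [hm]; linarith
  have hm2 : m < t := by rw [hm]; linarith
  have hmA : (m : ℂ) ∈ A := by
    have : ‖(m : ℂ)‖ = m := by rw [norm_real, Real.norm_of_nonneg hm0.le]
    exact ⟨by rw [this]; exact hm1, by rw [this]; exact hm2⟩
  have hT : IsPreconnected ((Ω ∩ Mirᶜ) ∪ A) := by
    refine isPreconnected_of_forall (m : ℂ) ?_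
    rintro z (⟨hzΩ, hzM⟩ | hzA)
    · -- the radial segment
      have hz0 : z ≠ 0 := by
        rintro rfl
        exact hzM (by simp [Mir])
      have hzn : 0 < ‖z‖ := norm_pos_iff.2 hz0
      set S : Set ℂ := (fun c : ℝ => (c : ℂ) * z) '' (uIcc 1 (m / ‖z‖)) with hS
      have hSc : IsPreconnected S := isPreconnected_uIcc.image _ (by fun_prop)
      have hmz : 0 < m / ‖z‖ := div_pos hm0 hzn
      have hpos : ∀ c ∈ uIcc 1 (m / ‖z‖), 0 < c := by
        intro c hc
        rw [mem_uIcc] at hc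
        rcases hc with hc | hc
        · linarith [hc.1]
        · exact hmz.trans_le hc.1
      have hSsub : S ⊆ Ω ∩ Mirᶜ := by
        rintro _ ⟨c, hc, rfl⟩
        have hc0 := hpos c hc
        have hM : (c : ℂ) * z ∉ Mir := mir_cone hc0 hzM
        refine ⟨⟨?_, fun h => hM (wall_sub' _ _ h)⟩, hM⟩
        have hle : c ≤ 1 ∨ c ≤ m / ‖z‖ := by
          rw [mem_uIcc] at hc
          rcases hc with hc | hc
          · exact Or.inr hc.2
          · exact Or.inl hc.2
        rcases hle with hle | hle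
        · have h1 : |z.re| < 1 := hzΩ.1.1
          have h2 : |z.im| < 1 := hzΩ.1.2
          refine ⟨?_, ?_⟩
          · rw [re_ofReal_mul, abs_mul, abs_of_pos hc0]
            exact (mul_le_of_le_one_left (abs_nonneg _) hle).trans_lt h1
          · rw [im_ofReal_mul, abs_mul, abs_of_pos hc0]
            exact (mul_le_of_le_one_left (abs_nonneg _) hle).trans_lt h2
        · apply hball
          rw [norm_mul, norm_real, Real.norm_of_nonneg hc0.le]
          have : c * ‖z‖ ≤ m := by rwa [le_div_iff₀ hzn] at hle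
          linarith
      refine ⟨S ∪ A, union_subset (hSsub.trans subset_union_left) subset_union_right,
        Or.inr hmA, Or.inl ⟨1, left_mem_uIcc, by simp⟩, ?_⟩
      refine hSc.union' ?_ (annulus_conn hr)
      refine ⟨((m / ‖z‖ : ℝ) : ℂ) * z, ⟨m / ‖z‖, right_mem_uIcc, rfl⟩, ?_⟩
      have : ‖((m / ‖z‖ : ℝ) : ℂ) * z‖ = m := by
        rw [norm_mul, norm_real, Real.norm_of_nonneg hmz.le, div_mul_cancel₀ _ hzn.ne']
      exact ⟨by rw [this]; exact hm1, by rw [this]; exact hm2⟩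
    · exact ⟨A, subset_union_right, hmA, hzA, annulus_conn hr⟩
  have hdense : Dense (Mirᶜ : Set ℂ) := by
    rw [← interior_eq_empty_iff_dense_compl]
    exact Measure.interior_eq_empty_of_null (μ := volume) b09a_mir_null
  refine ⟨⟨(m : ℂ), hAΩ hmA⟩, ?_⟩
  refine hT.subset_closure (union_subset inter_subset_left hAΩ) ?_
  exact (hdense.open_subset_closure_inter hΩo).trans
    (closure_mono subset_union_left)

end Pool.Agent.H87.LF
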