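import Mathlib

open MeasureTheory Filter Topology

namespace Pool.Agent.H87.LF

variable {X : Type*} [NormedAddCommGroup X] [InnerProductSpace ℝ X] [FiniteDimensional ℝ X]
  [MeasurableSpace X] [BorelSpace X] [CompleteSpace X]

/-- `u` belongs to `D_0^{1,2}(Ω)` and `G` is its weak gradient: for bounded `Ω`, this space is the
closure of the smooth functions with compact support in `Ω`; so `u` and `G` are in `L²(Ω)`, and
there are such functions `φₙ` with `φₙ → u` and `∇ φₙ → G` in `L²(Ω)`. -/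
def IsD012 (Ω : Set X) (u : X → ℝ) (G : X → X) : Prop :=
  MemLp u 2 (volume.restrict Ω) ∧ MemLp G 2 (volume.restrict Ω) ∧
  ∃ φ : ℕ → X → ℝ,
    (∀ n, ContDiff ℝ ((⊤ : ℕ∞) : WithTop ℕ∞) (φ n) ∧ HasCompactSupport (φ n) ∧
      tsupport (φ n) ⊆ Ω) ∧
    Tendsto (fun n => eLpNorm (fun x => φ n x - u x) 2 (volume.restrict Ω)) atTop (𝓝 0) ∧
    Tendsto (fun n => eLpNorm (fun x => gradient (φ n) x - G x) 2 (volume.restrict Ω)) atTop (𝓝 0)

/-- The `q`-spectrum of the Dirichlet Laplacian on `Ω`: all real `lam` for which there is a nonzero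
`u ∈ D_0^{1,2}(Ω)` with `-Δ u = lam ‖u‖_q^{2-q} |u|^{q-2} u` weakly in `Ω`, that is, tested with all
elements of `D_0^{1,2}(Ω)`. -/
def qSpectrum (Ω : Set X) (q : ℝ) : Set ℝ :=
  {lam : ℝ | ∃ (u : X → ℝ) (G : X → X), IsD012 Ω u G ∧
    MemLp u (ENNReal.ofReal q) (volume.restrict Ω) ∧ ¬ (u =ᵐ[volume.restrict Ω] 0) ∧
    ∀ (φ : X → ℝ) (Φ : X → X), IsD012 Ω φ Φ →
      ∫ x in Ω, inner ℝ (G x) (Φ x) =
        lam * ((eLpNorm u (ENNReal.ofReal q) (volume.restrict Ω)).toReal) ^ (2 - q) *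
          ∫ x in Ω, |u x| ^ (q - 2) * u x * φ x}

end Pool.Agent.H87.LF
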