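import Pool.Agent.H87.LE.B11_Scheme

open Set Filter Topology

namespace Pool.Agent.H87.LF

open Pool.Agent.H87.LE

/-- the scheme with the additional information that the limit parameter is larger than `r₀` -/
theorem scheme' (μ : Set ℝ → ℝ → ℝ) (Cert : ℕ → Set ℝ → ℝ → Prop) (r₀ tp : ℝ) (h0 : 0 < r₀)
    (h1 : r₀ < tp) (adm : Set ℝ → Prop)
    (hadm : ∀ Z, adm Z ↔ IsClosed Z ∧ (0 : ℝ) ∈ Z ∧ Z ⊆ Icc 0 r₀)
    (mono : ∀ Z Z' t t', adm Z → adm Z' → Z' ⊆ Z → r₀ ≤ t → t ≤ t' → t' ≤ tp → μ Z t ≤ 0 →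
      μ Z' t' ≤ 0)
    (cont : ∀ Z t, adm Z → t ∈ Icc r₀ tp → ∀ ε > 0, ∃ ρ > 0, ∀ Z' t', adm Z' → t' ∈ Icc r₀ tp →
      Z' \ Ico 0 ρ = Z \ Ico 0 ρ → |t' - t| < ρ → |μ Z' t' - μ Z t| < ε)
    (neg : μ (Icc 0 r₀) tp < 0) (pos : 0 < μ (Icc 0 r₀) r₀)
    (opn : ∀ k Z t, adm Z → t ∈ Icc r₀ tp → Cert k Z t → ∃ ρ > 0, ∀ Z' t', adm Z' →
      t' ∈ Icc r₀ tp → Z' \ Ico 0 ρ = Z \ Ico 0 ρ → |t' - t| < ρ → Cert k Z' t')
    (stage : ∀ Z r a, adm Z → Icc 0 r ⊆ Z → 0 < a → a < r → ∀ (b t : ℕ → ℝ) (t0 : ℝ),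
      (∀ n, 0 < b n ∧ b n < a) → Tendsto b atTop (𝓝 0) → (∀ n, t n ∈ Icc r₀ tp) →
      Tendsto t atTop (𝓝 t0) → (∀ n, μ (Z \ Ioo (b n) a) (t n) = 0) →
      ∀ k, ∃ n, Cert k (Z \ Ioo (b n) a) (t n)) :
    ∃ Z t, adm Z ∧ t ∈ Icc r₀ tp ∧ r₀ < t ∧ ∀ k, Cert k Z t := by
  have hadm0 : adm (Icc 0 r₀) := (hadm _).2 ⟨isClosed_Icc, ⟨le_rfl, h0.le⟩, Subset.rfl⟩
  obtain ⟨ρ, hρ, hc⟩ := cont (Icc 0 r₀) r₀ hadm0 ⟨le_rfl, h1.le⟩ _ pos
  set d : ℝ := min ρ (tp - r₀) / 2 with hd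
  have hm : 0 < min ρ (tp - r₀) := lt_min hρ (by linarith)
  have hd0 : 0 < d := by positivity
  have hd1 : d < ρ := by
    have := min_le_left ρ (tp - r₀)
    linarith
  have hd2 : d < tp - r₀ := by
    have := min_le_right ρ (tp - r₀)
    linarith
  set s : ℝ := r₀ + d with hs
  have hpos' : 0 < μ (Icc 0 r₀) s := by
    have h := hc (Icc 0 r₀) s hadm0 ⟨by linarith, by linarith⟩ rfl
      (by rw [hs, add_sub_cancel_left, abs_of_pos hd0]; exact hd1)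
    rw [abs_lt] at h
    linarith [h.1]
  set θ : ℝ := (tp - s) / (tp - r₀) with hθ
  have hθ0 : 0 < θ := div_pos (by linarith) (by linarith)
  have hθ1 : θ ≤ 1 := by
    rw [hθ, div_le_one (by linarith)]
    linarith
  set g : ℝ → ℝ := fun t => s + (t - r₀) * θ with hg
  have hgr : g r₀ = s := by simp [hg]
  have hgt : g tp = tp := by
    have : tp - r₀ ≠ 0 := by linarith
    simp only [hg, hθ]
    field_simp
    ring
  have hgm : ∀ t t', t ≤ t' → g t ≤ g t' := by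
    intro t t' h
    simp only [hg]
    have := mul_le_mul_of_nonneg_right (sub_le_sub_right h r₀) hθ0.le
    linarith
  have hgI : ∀ t ∈ Icc r₀ tp, g t ∈ Icc r₀ tp := by
    intro t ht
    refine ⟨?_, ?_⟩
    · have := hgm _ _ ht.1
      rw [hgr] at this
      linarith
    · have := hgm _ _ ht.2
      rwa [hgt] at this
  have hgd : ∀ t t', |g t' - g t| ≤ |t' - t| := by
    intro t t'
    have : g t' - g t = (t' - t) * θ := by simp only [hg]; ring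
    rw [this, abs_mul, abs_of_pos hθ0]
    exact mul_le_of_le_one_right (abs_nonneg _) hθ1
  have hgc : Continuous g := by
    simp only [hg]
    fun_prop
  obtain ⟨Z, t, hZ, ht, hcert⟩ := scheme (fun Z t => μ Z (g t)) (fun k Z t => Cert k Z (g t)) r₀ tp
    h0 h1 adm hadm
    (fun Z Z' t t' hZ hZ' hsub a1 a2 a3 a4 =>
      mono Z Z' (g t) (g t') hZ hZ' hsub (hgI t ⟨a1, a2.trans a3⟩).1 (hgm _ _ a2)
        (hgI t' ⟨a1.trans a2, a3⟩).2 a4)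
    (by
      intro Z t hZ ht ε hε
      obtain ⟨ρ, hρ, h⟩ := cont Z (g t) hZ (hgI t ht) ε hε
      exact ⟨ρ, hρ, fun Z' t' hZ' ht' a1 a2 =>
        h Z' (g t') hZ' (hgI t' ht') a1 ((hgd t t').trans_lt a2)⟩)
    (by simpa only [hgt] using neg)
    (by simpa only [hgr] using hpos')
    (by
      intro k Z t hZ ht hC
      obtain ⟨ρ, hρ, h⟩ := opn k Z (g t) hZ (hgI t ht) hC
      exact ⟨ρ, hρ, fun Z' t' hZ' ht' a1 a2 =>
        h Z' (g t') hZ' (hgI t' ht') a1 ((hgd t t').trans_lt a2)⟩)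
    (by
      intro Z r a hZ hr ha har b t t0 hb hb0 ht ht0 hμ k
      exact stage Z r a hZ hr ha har b (fun n => g (t n)) (g t0) hb hb0
        (fun n => hgI _ (ht n)) ((hgc.tendsto t0).comp ht0) hμ k)
  refine ⟨Z, g t, hZ, hgI t ht, ?_, hcert⟩
  have := hgm _ _ ht.1
  rw [hgr] at this
  linarith

end Pool.Agent.H87.LF
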