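import Pool.Agent.H87.LE.B13a_Transfer
import Pool.Agent.H87.LF.Defs

open MeasureTheory Set Filter Topology
open scoped ContDiff

namespace Pool.Agent.H87.LF

open Pool.Agent.H87.LE

variable {X Y : Type*} [NormedAddCommGroup X] [InnerProductSpace ℝ X] [FiniteDimensional ℝ X]
  [MeasurableSpace X] [BorelSpace X] [CompleteSpace X]
  [NormedAddCommGroup Y] [InnerProductSpace ℝ Y] [FiniteDimensional ℝ Y]
  [MeasurableSpace Y] [BorelSpace Y] [CompleteSpace Y]

theorem tendsto_inner {E : Type*} [NormedAddCommGroup E] [InnerProductSpace ℝ E]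
    {μ : Measure X} {F H : X → E} {Hn : ℕ → X → E} (hF : MemLp F 2 μ)
    (hHn : ∀ n, MemLp (Hn n) 2 μ) (hH : MemLp H 2 μ)
    (h : Tendsto (fun n => eLpNorm (fun x => Hn n x - H x) 2 μ) atTop (𝓝 0)) :
    Tendsto (fun n => ∫ x, inner ℝ (F x) (Hn n x) ∂μ) atTop (𝓝 (∫ x, inner ℝ (F x) (H x) ∂μ)) := by
  have key : ∀ (K : X → E) (hK : MemLp K 2 μ),
      ∫ x, inner ℝ (F x) (K x) ∂μ = inner ℝ (hF.toLp F) (hK.toLp K) := by
    intro K hK
    rw [L2.inner_def]
    refine integral_congr_ae ?_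
    filter_upwards [hF.coeFn_toLp, hK.coeFn_toLp] with x h1 h2
    rw [h1, h2]
  simp only [key _ (hHn _), key _ hH]
  refine tendsto_const_nhds.inner ?_
  rw [Lp.tendsto_Lp_iff_tendsto_eLpNorm'']
  exact h

theorem memLp_test {μ : Measure X} [IsFiniteMeasureOnCompacts μ] {φ : X → ℝ}
    (h1 : ContDiff ℝ ((⊤ : ℕ∞) : WithTop ℕ∞) φ) (h2 : HasCompactSupport φ) :
    MemLp φ 2 μ ∧ MemLp (gradient φ) 2 μ := by
  refine ⟨h1.continuous.memLp_of_hasCompactSupport h2, ?_⟩
  have h3 : Continuous (fderiv ℝ φ) := h1.continuous_fderiv (by simp)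
  have h4 : Continuous (gradient φ) :=
    (InnerProductSpace.toDual ℝ X).symm.continuous.comp h3
  refine h4.memLp_of_hasCompactSupport ?_
  exact (h2.fderiv ℝ).comp_left (g := fun L => (InnerProductSpace.toDual ℝ X).symm L) (map_zero _)

/-- a weak equation tested with smooth functions can be tested with `D_0^{1,2}` -/
theorem ext_test {Ω : Set X} {u : X → ℝ} {G : X → X} {c : ℝ}
    (hu : MemLp u 2 (volume.restrict Ω)) (hG : MemLp G 2 (volume.restrict Ω))
    (h : ∀ ψ : X → ℝ, ContDiff ℝ ((⊤ : ℕ∞) : WithTop ℕ∞) ψ → HasCompactSupport ψ →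
      tsupport ψ ⊆ Ω → ∫ x in Ω, inner ℝ (G x) (gradient ψ x) = c * ∫ x in Ω, u x * ψ x)
    {φ : X → ℝ} {Φ : X → X} (hφ : IsD012 Ω φ Φ) :
    ∫ x in Ω, inner ℝ (G x) (Φ x) = c * ∫ x in Ω, u x * φ x := by
  obtain ⟨h1, h2, ψ, hψ, hl1, hl2⟩ := hφ
  have t1 := tendsto_inner hG
    (fun n => (memLp_test (μ := volume.restrict Ω) (hψ n).1 (hψ n).2.1).2) h2 hl2
  have t2 := tendsto_inner hu
    (fun n => (memLp_test (μ := volume.restrict Ω) (hψ n).1 (hψ n).2.1).1) h1 hl1
  have e : ∀ a b : ℝ, inner ℝ a b = a * b := fun a b => by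
    simp [mul_comm]
  simp only [e] at t2
  have t3 := t2.const_mul c
  refine tendsto_nhds_unique t1 (t3.congr fun n => ?_)
  exact (h (ψ n) (hψ n).1 (hψ n).2.1 (hψ n).2.2).symm

theorem IsD012.image (e : X ≃ₗᵢ[ℝ] Y) {Ω : Set X} {u : X → ℝ} {G : X → X} (h : IsD012 Ω u G) :
    IsD012 (e '' Ω) (fun y => u (e.symm y)) (fun y => e (G (e.symm y))) := by
  obtain ⟨hu2, hG, φ, hφ, hL1, hL2⟩ := h
  have hm := b13_mp e Ω
  refine ⟨hu2.comp_measurePreserving hm, ?_, fun n y => φ n (e.symm y),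
    fun n => ⟨(hφ n).1.comp e.symm.contDiff, (hφ n).2.1.comp_homeomorph e.symm.toHomeomorph,
      b13_tsupport e (hφ n).2.2⟩, ?_, ?_⟩
  · have h1 : MemLp (fun y => G (e.symm y)) 2 (volume.restrict (e '' Ω)) :=
      hG.comp_measurePreserving hm
    exact e.toContinuousLinearEquiv.toContinuousLinearMap.comp_memLp' h1
  · refine hL1.congr fun n => ?_
    exact (eLpNorm_comp_measurePreserving (p := 2)
      ((hφ n).1.continuous.aestronglyMeasurable.sub hu2.1) hm).symm
  · refine hL2.congr fun n => ?_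
    have hgc : Continuous (gradient (φ n)) := by
      have h1 : Continuous (fderiv ℝ (φ n)) := (hφ n).1.continuous_fderiv (by simp)
      exact (InnerProductSpace.toDual ℝ X).symm.continuous.comp h1
    have e1 := eLpNorm_comp_measurePreserving (p := 2)
      (hgc.aestronglyMeasurable.sub hG.1) hm
    refine (e1.symm.trans ?_ : eLpNorm (gradient (φ n) - G) 2 (volume.restrict Ω) = _)
    apply eLpNorm_congr_norm_ae
    refine Eventually.of_forall fun z => ?_
    have e2 := b13_grad_comp e.symm (φ n) z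
    rw [LinearIsometryEquiv.symm_symm] at e2
    rw [e2, ← map_sub, e.norm_map]
    rfl

/-- the spectrum is invariant under isometries -/
theorem qSpectrum_image (e : X ≃ₗᵢ[ℝ] Y) (Ω : Set X) (q : ℝ) :
    qSpectrum Ω q ⊆ qSpectrum (e '' Ω) q := by
  rintro lam ⟨u, G, hD, huq, hne, heq⟩
  have hm := b13_mp e Ω
  have hsymm : e.symm '' (e '' Ω) = Ω := by
    rw [image_image]
    simp
  have hm' : MeasurePreserving e (volume.restrict Ω) (volume.restrict (e '' Ω)) := by
    have := b13_mp e.symm (e '' Ω)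
    rwa [hsymm] at this
  refine ⟨fun y => u (e.symm y), fun y => e (G (e.symm y)), hD.image e,
    huq.comp_measurePreserving hm, ?_, ?_⟩
  · intro h
    apply hne
    have h1 := hm'.quasiMeasurePreserving.ae h
    filter_upwards [h1] with z hz
    simpa using hz
  · intro φ Φ hφ
    have h4 := hφ.image e.symm
    rw [hsymm] at h4
    simp only [LinearIsometryEquiv.symm_symm] at h4
    have h5 := heq _ _ h4
    have e1 : ∫ y in e '' Ω, inner ℝ (e (G (e.symm y))) (Φ y) =
        ∫ x in Ω, inner ℝ (G x) (e.symm (Φ (e x))) := by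
      rw [← hm.integral_comp e.symm.toHomeomorph.measurableEmbedding]
      apply integral_congr_ae
      refine Eventually.of_forall fun y => ?_
      simp only
      rw [e.apply_symm_apply, ← e.inner_map_map (G (e.symm y)), e.apply_symm_apply]
    have e2 : ∫ y in e '' Ω, |u (e.symm y)| ^ (q - 2) * u (e.symm y) * φ y =
        ∫ x in Ω, |u x| ^ (q - 2) * u x * φ (e x) := by
      rw [← hm.integral_comp e.symm.toHomeomorph.measurableEmbedding]
      apply integral_congr_ae
      refine Eventually.of_forall fun y => ?_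
      simp only
      rw [e.apply_symm_apply]
    have e3 : eLpNorm (fun y => u (e.symm y)) (ENNReal.ofReal q) (volume.restrict (e '' Ω)) =
        eLpNorm u (ENNReal.ofReal q) (volume.restrict Ω) :=
      eLpNorm_comp_measurePreserving huq.1 hm
    rw [e1, e2, e3]
    exact h5

end Pool.Agent.H87.LF
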